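import Pool.Agent.H88.MCR.Stmts2
import Pool.Agent.H88.MCR.FIN

/-!
Row FI2 of the board mcr.
-/

namespace Pool.MCR

theorem fi2_first (hT : TO2_S) (hM : MP2_S) (hR : RST_S) (W V : Type) [Fintype W] [Fintype V]
    (F : SimpleGraph W) (G : SimpleGraph V) (φ : W → V) (hF : OneCyc F)
    (hφ : Function.Injective φ) :
    (∃ D : Drawing G, ∀ e ∈ F.edgeSet, ∀ f ∈ F.edgeSet, (∀ v, ¬ (v ∈ e ∧ v ∈ f)) →
      D.Crosses (e.map φ) (f.map φ)) := by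
  obtain ⟨Dr, hDr⟩ := hT V (F.map (⟨φ, hφ⟩ : W ↪ V)) (hM W V F ⟨φ, hφ⟩ hF)
  obtain ⟨Dg, hDg⟩ := hR V G Dr
  refine ⟨Dg, fun e he f hf hi => hDg _ _ (hDr _ ?_ _ ?_ ?_)⟩
  · induction e using Sym2.ind with
    | _ a b =>
      rw [Sym2.map_mk, SimpleGraph.mem_edgeSet]
      rw [SimpleGraph.mem_edgeSet] at he
      exact (SimpleGraph.map_adj ⟨φ, hφ⟩ F _ _).2 ⟨a, b, he, rfl, rfl⟩
  · induction f using Sym2.ind with
    | _ a b =>
      rw [Sym2.map_mk, SimpleGraph.mem_edgeSet]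
      rw [SimpleGraph.mem_edgeSet] at hf
      exact (SimpleGraph.map_adj ⟨φ, hφ⟩ F _ _).2 ⟨a, b, hf, rfl, rfl⟩
  · rintro v ⟨h1, h2⟩
    rw [Sym2.mem_map] at h1 h2
    obtain ⟨a, ha, rfl⟩ := h1
    obtain ⟨b, hb, hab⟩ := h2
    have := hφ hab
    subst this
    exact hi b ⟨ha, hb⟩

theorem fi2_thm (hT : TO2_S) (hM : MP2_S) (hR : RST_S) (hU : UPB_S) : FI2_S := by
  intro W V _ _ F G φ hF hφ hG
  obtain ⟨D, hD⟩ := fi2_first hT hM hR W V F G φ hF hφ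
  obtain ⟨D0, hD0⟩ := fi2_first hT hM hR W W F F id hF Function.injective_id
  have h1 : indepPairs F ≤ D.cr := indep_le_cr F G φ hφ hG D hD
  have h0 : indepPairs F ≤ D0.cr := indep_le_cr F F id Function.injective_id (fun a b h => h) D0 hD0
  have e1 : maxCr F = indepPairs F := by
    apply le_antisymm
    · unfold maxCr
      refine csSup_le ⟨D0.cr, D0, rfl⟩ ?_
      rintro k ⟨D', rfl⟩
      exact (hU W F D').2
    · exact h0.trans (le_csSup (maxCr_bdd hU F) ⟨D0, rfl⟩)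
  refine ⟨⟨D, hD⟩, e1, ?_⟩
  rw [e1]
  exact h1.trans (le_csSup (maxCr_bdd hU G) ⟨D, rfl⟩)

end Pool.MCR
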