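import Pool.Agent.H88.MCR.Stmts

/-!
# Row GEN of the board `mcr`: a generic strictly increasing sequence
-/

set_option autoImplicit false

namespace Pool.MCR

namespace GEN

theorem affine (a b c d e f : ℝ) : det6 a b c d e f =
    ((c * d - e * f) - b * ((c + d) - (e + f))) * a +
      (b * (c * d - e * f) + (c + d) * (e * f) - (e + f) * (c * d)) := by
  unfold det6
  ring

/-- the bad values of `a` -/
theorem fin1 (b c d e f : ℝ) (hbe : b ≠ e) (hbf : b ≠ f) (hce : c ≠ e) (hcf : c ≠ f) :
    {a : ℝ | det6 a b c d e f = 0}.Finite := by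
  by_cases h : (c * d - e * f) - b * ((c + d) - (e + f)) = 0
  · have hempty : {a : ℝ | det6 a b c d e f = 0} = ∅ := by
      ext a
      constructor
      · intro ha
        have ha' : det6 a b c d e f = 0 := ha
        rw [affine, h, zero_mul, zero_add] at ha'
        have h1 : ((c + d) - (e + f)) * ((b - e) * (b - f)) = 0 := by
          linear_combination ha' + ((e + f) - b) * h
        have h2 : (c + d) - (e + f) = 0 := by
          rcases mul_eq_zero.1 h1 with h3 | h3
          · exact h3
          · rcases mul_eq_zero.1 h3 with h4 | h4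
            · exact absurd (sub_eq_zero.1 h4) hbe
            · exact absurd (sub_eq_zero.1 h4) hbf
        have h3 : (c - e) * (c - f) = 0 := by
          linear_combination c * h2 - h - b * h2
        rcases mul_eq_zero.1 h3 with h4 | h4
        · exact absurd (sub_eq_zero.1 h4) hce
        · exact absurd (sub_eq_zero.1 h4) hcf
      · intro ha
        exact absurd ha (Set.notMem_empty a)
    rw [hempty]
    exact Set.finite_empty
  · refine (Set.finite_singleton (-(b * (c * d - e * f) + (c + d) * (e * f) - (e + f) * (c * d)) /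
      ((c * d - e * f) - b * ((c + d) - (e + f))))).subset ?_
    intro a ha
    have ha' : det6 a b c d e f = 0 := ha
    rw [affine] at ha'
    rw [Set.mem_singleton_iff, eq_div_iff h]
    linear_combination ha'

theorem sw1 (a b c d e f : ℝ) : det6 a b c d e f = det6 b a c d e f := by unfold det6; ring
theorem sw2 (a b c d e f : ℝ) : det6 a b c d e f = -det6 c d a b e f := by unfold det6; ring
theorem sw3 (a b c d e f : ℝ) : det6 a b c d e f = -det6 e f c d a b := by unfold det6; ring

end GEN

open GEN in
theorem gen_thm : GEN_S := by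
  intro N
  induction N with
  | zero =>
    refine ⟨fun i => (i : ℝ), fun i j h => by show (i : ℝ) < (j : ℝ); exact_mod_cast h, ?_⟩
    rintro a b c d e f ⟨i, hi, _⟩
    exact absurd hi (Nat.not_lt_zero i)
  | succ N ih =>
    obtain ⟨g, hg, hgen⟩ := ih
    obtain ⟨A, hA⟩ : ∃ A : Set ℝ, A = g '' (Set.Iio N) := ⟨_, rfl⟩
    have hAf : A.Finite := by
      rw [hA]
      exact (Set.finite_Iio N).image g
    have hAm : ∀ c, c ∈ A ↔ ∃ i < N, c = g i := by
      intro c
      rw [hA]
      constructor
      · rintro ⟨i, hi, rfl⟩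
        exact ⟨i, hi, rfl⟩
      · rintro ⟨i, hi, rfl⟩
        exact ⟨i, hi, rfl⟩
    let S : Set ℝ := ⋃ b ∈ A, ⋃ c ∈ A, ⋃ d ∈ A, ⋃ e ∈ A, ⋃ f ∈ A,
      {a | (b ≠ e ∧ b ≠ f ∧ c ≠ e ∧ c ≠ f) ∧ det6 a b c d e f = 0}
    have hS : S.Finite := by
      refine hAf.biUnion fun b _ => hAf.biUnion fun c _ => hAf.biUnion fun d _ =>
        hAf.biUnion fun e _ => hAf.biUnion fun f _ => ?_
      by_cases h : b ≠ e ∧ b ≠ f ∧ c ≠ e ∧ c ≠ f
      · exact (fin1 b c d e f h.1 h.2.1 h.2.2.1 h.2.2.2).subset fun a ha => ha.2
      · exact Set.finite_empty.subset fun a ha => (h ha.1).elim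
    obtain ⟨y, hy, hyS⟩ := (Set.Ioi_infinite (g N)).exists_notMem_finite hS
    have hyg : ∀ i < N, g i < y := fun i hi => (hg hi).trans hy
    have hkey : ∀ b c d e f : ℝ, b ∈ A → c ∈ A → d ∈ A → e ∈ A → f ∈ A →
        b ≠ e → b ≠ f → c ≠ e → c ≠ f → det6 y b c d e f ≠ 0 := by
      intro b c d e f hb hc hd he hf h1 h2 h3 h4 h0
      apply hyS
      simp only [S, Set.mem_iUnion]
      exact ⟨b, hb, c, hc, d, hd, e, he, f, hf, ⟨h1, h2, h3, h4⟩, h0⟩
    refine ⟨fun i => if i < N then g i else y + ((i - N : ℕ) : ℝ), ?_, ?_⟩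
    · apply strictMono_nat_of_lt_succ
      intro i
      by_cases h1 : i + 1 < N
      · have h2 : i < N := by omega
        simp only [h1, h2, if_true]
        exact hg (Nat.lt_succ_self i)
      · by_cases h2 : i < N
        · have h3 : i + 1 - N = 0 := by omega
          simp only [h1, h2, if_true, if_false, h3]
          simpa using hyg i h2
        · have h3 : i + 1 - N = (i - N) + 1 := by omega
          simp only [h1, h2, if_false, h3]
          push_cast
          linarith
    · have hmem : ∀ c : ℝ, (∃ i < N + 1, c = if i < N then g i else y + ((i - N : ℕ) : ℝ)) →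
          c = y ∨ c ∈ A := by
        rintro c ⟨i, hi, rfl⟩
        by_cases h : i < N
        · right
          rw [if_pos h, hAm]
          exact ⟨i, h, rfl⟩
        · left
          have h1 : i - N = 0 := by omega
          rw [if_neg h, h1]
          simp
      intro a b c d e f ha hb hc hd he hf hnd
      have ha' := hmem a ha
      have hb' := hmem b hb
      have hc' := hmem c hc
      have hd' := hmem d hd
      have he' := hmem e he
      have hf' := hmem f hf
      simp only [List.nodup_cons, List.mem_cons, List.not_mem_nil, or_false, not_or,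
        List.nodup_nil, and_true, not_false_eq_true] at hnd
      obtain ⟨⟨hab, hac, had, hae, haf⟩, ⟨hbc, hbd, hbe, hbf⟩, ⟨hcd, hce, hcf⟩, ⟨hde, hdf⟩, hef⟩ := hnd
      have get : ∀ x : ℝ, (x = y ∨ x ∈ A) → x ≠ y → x ∈ A := fun x h h1 => h.resolve_left h1
      by_cases h1 : a = y
      · subst h1
        exact hkey b c d e f (get b hb' (Ne.symm hab)) (get c hc' (Ne.symm hac))
          (get d hd' (Ne.symm had)) (get e he' (Ne.symm hae)) (get f hf' (Ne.symm haf)) hbe hbf
          hce hcf
      by_cases h2 : b = y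
      · subst h2
        rw [sw1]
        exact hkey a c d e f (get a ha' hab) (get c hc' (Ne.symm hbc))
          (get d hd' (Ne.symm hbd)) (get e he' (Ne.symm hbe)) (get f hf' (Ne.symm hbf)) hae haf
          hce hcf
      by_cases h3 : c = y
      · subst h3
        rw [sw2, neg_ne_zero]
        exact hkey d a b e f (get d hd' (Ne.symm hcd)) (get a ha' hac) (get b hb' hbc)
          (get e he' (Ne.symm hce)) (get f hf' (Ne.symm hcf)) hde hdf hae haf
      by_cases h4 : d = y
      · subst h4
        rw [sw2, sw1, neg_ne_zero]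
        exact hkey c a b e f (get c hc' hcd) (get a ha' had) (get b hb' hbd)
          (get e he' (Ne.symm hde)) (get f hf' (Ne.symm hdf)) hce hcf hae haf
      by_cases h5 : e = y
      · subst h5
        rw [sw3, neg_ne_zero]
        exact hkey f c d a b (get f hf' (Ne.symm hef)) (get c hc' hce) (get d hd' hde)
          (get a ha' hae) (get b hb' hbe) (Ne.symm haf) (Ne.symm hbf) (Ne.symm hac) (Ne.symm hbc)
      by_cases h6 : f = y
      · subst h6
        rw [sw3, sw1, neg_ne_zero]
        exact hkey e c d a b (get e he' hef) (get c hc' hcf) (get d hd' hdf)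
          (get a ha' haf) (get b hb' hbf) (Ne.symm hae) (Ne.symm hbe) (Ne.symm hac) (Ne.symm hbc)
      refine hgen a b c d e f ((hAm a).1 (get a ha' h1)) ((hAm b).1 (get b hb' h2))
        ((hAm c).1 (get c hc' h3)) ((hAm d).1 (get d hd' h4)) ((hAm e).1 (get e he' h5))
        ((hAm f).1 (get f hf' h6)) ?_
      simp only [List.nodup_cons, List.mem_cons, List.not_mem_nil, or_false, not_or,
        List.nodup_nil, and_true, not_false_eq_true]
      exact ⟨⟨hab, hac, had, hae, haf⟩, ⟨hbc, hbd, hbe, hbf⟩, ⟨hcd, hce, hcf⟩, ⟨hde, hdf⟩, hef⟩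

end Pool.MCR
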